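import Mathlib

namespace Pool.Agent.Results.MP_0ef12e_an.Root

variable {A : Type}

/-- Random substitutions: nonempty finite sets of nonempty words. -/
def IsRS (θ : A → Set (List A)) : Prop :=
  ∀ a, (θ a).Finite ∧ (θ a).Nonempty ∧ ∀ w ∈ θ a, w ≠ []

/-- The image of a word (set concatenation). -/
def onWord (θ : A → Set (List A)) : List A → Set (List A)
  | [] => {[]}
  | a :: u => {w | ∃ x ∈ θ a, ∃ y ∈ onWord θ u, w = x ++ y}

/-- The powers `θ^p(a)`. -/
def pw (θ : A → Set (List A)) (a : A) : ℕ → Set (List A)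
  | 0 => {[a]}
  | p + 1 => ⋃ u ∈ pw θ a p, onWord θ u

/-- Legal words. -/
def Legal (θ : A → Set (List A)) (w : List A) : Prop := ∃ a p, ∃ u ∈ pw θ a p, w <:+: u

/-- The word `x_i ⋯ x_{i+n-1}`. -/
def sub (x : ℤ → A) (i : ℤ) (n : ℕ) : List A := List.ofFn fun k : Fin n => x (i + k)

/-- The RS-subshift. -/
def RS (θ : A → Set (List A)) : Set (ℤ → A) := {x | ∀ i n, Legal θ (sub x i n)}

/-- Compatibility. -/
def Compatible [DecidableEq A] (θ : A → Set (List A)) : Prop :=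
  ∀ a, ∀ u ∈ θ a, ∀ v ∈ θ a, ∀ b, u.count b = v.count b

/-- Primitivity. -/
def Primitive (θ : A → Set (List A)) : Prop := ∃ p, 1 ≤ p ∧ ∀ a b, ∃ u ∈ pw θ b p, a ∈ u

/-- the four words -/
def W : Set (List (Fin 3)) := {[2, 0, 1, 0, 1], [2, 0, 1, 1, 0], [2, 1, 0, 0, 1], [2, 1, 0, 1, 0]}

/-- the substitution -/
def θ : Fin 3 → Set (List (Fin 3)) := fun _ => W

/-- concatenations -/
inductive Cat : ℕ → List (Fin 3) → Prop
  | nil : Cat 0 []
  | cons {x y n} : x ∈ W → Cat n y → Cat (n + 1) (x ++ y)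

lemma onWord_iff (u w : List (Fin 3)) : w ∈ onWord θ u ↔ Cat u.length w := by
  induction u generalizing w with
  | nil => exact ⟨by rintro rfl; exact .nil, fun h => by cases h; rfl⟩
  | cons a u ih =>
    refine ⟨?_, fun h => ?_⟩
    · rintro ⟨x, hx, y, hy, rfl⟩
      exact .cons hx ((ih _).mp hy)
    · cases h with
      | cons h1 h2 => exact ⟨_, h1, _, (ih _).mpr h2, rfl⟩

lemma Cat.length {n w} (h : Cat n w) : w.length = 5 * n := by
  induction h with
  | nil => rfl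
  | cons h _ ih =>
    rw [List.length_append, ih]
    rcases h with rfl | rfl | rfl | rfl <;> simp <;> ring

lemma cat_ex (n : ℕ) : ∃ w, Cat n w := by
  induction n with
  | zero => exact ⟨_, .nil⟩
  | succ n ih => exact ⟨_, .cons (Or.inl rfl) ih.choose_spec⟩

lemma pw_iff (a : Fin 3) (p : ℕ) (w : List (Fin 3)) : w ∈ pw θ a (p + 1) ↔ Cat (5 ^ p) w := by
  induction p generalizing w with
  | zero => simp [pw, onWord_iff]
  | succ p ih =>
    rw [pw]
    simp only [Set.mem_iUnion, onWord_iff, ih]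
    refine ⟨fun ⟨u, h1, h2⟩ => ?_, fun h => ?_⟩
    · rwa [h1.length, ← pow_succ'] at h2
    · obtain ⟨u, hu⟩ := cat_ex (5 ^ p)
      exact ⟨u, hu, by rwa [hu.length, ← pow_succ']⟩

/-- the structure of points -/
def Good (x : ℤ → Fin 3) : Prop := ∃ j : ℤ, ∀ m : ℤ, sub x (j + 5 * m) 5 ∈ W

lemma sub_add (x : ℤ → A) (i : ℤ) (m n : ℕ) : sub x i (m + n) = sub x i m ++ sub x (i + m) n := by
  simp [sub, List.ofFn_add, add_assoc]

lemma sub5 (x : ℤ → A) (i : ℤ) : sub x i 5 = [x i, x (i + 1), x (i + 2), x (i + 3), x (i + 4)] := by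
  simp [sub, List.ofFn_succ]

lemma good_cat {x : ℤ → Fin 3} {j : ℤ} (h : ∀ m : ℤ, sub x (j + 5 * m) 5 ∈ W) (n : ℕ) (m : ℤ) :
    Cat n (sub x (j + 5 * m) (5 * n)) := by
  induction n generalizing m with
  | zero => exact .nil
  | succ n ih =>
    rw [show 5 * (n + 1) = 5 + 5 * n by ring, sub_add]
    refine .cons (h m) ?_
    have := ih (m + 1)
    rwa [mul_add, ← add_assoc] at this

/-- allowed windows -/
def Win (l : List (Fin 3)) : Prop :=
  (∃ k < 5, l[k]? = some 2) ∧ (l[0]? = some 2 → l.take 5 ∈ W ∧ l[5]? = some 2) ∧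
    (l[5]? = some 2 → l[0]? = some 2)

instance (l : List (Fin 3)) : Decidable (l ∈ W) := by unfold W; infer_instance

instance (l : List (Fin 3)) : Decidable (Win l) := by unfold Win; infer_instance

lemma cat_win {n u} (h : Cat n u) : ∀ s l t, u = s ++ l ++ t → l.length = 6 → Win l := by
  induction h with
  | nil => intro s l t h h'; have := congrArg List.length h; simp at this; omega
  | @cons x y n hx hy ih =>
    intro s l t h h'
    have h5 : x.length = 5 := by rcases hx with rfl | rfl | rfl | rfl <;> rfl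
    by_cases hs : 5 ≤ s.length
    · refine ih (s.drop 5) l t ?_ h'
      have := congrArg (List.drop 5) h
      rwa [List.drop_left' h5, List.append_assoc, List.drop_append_of_le_length hs,
        ← List.append_assoc] at this
    · cases hy with
      | nil => have := congrArg List.length h; simp at this; omega
      | @cons z y n hz hy =>
        have h6 : z.length = 5 := by rcases hz with rfl | rfl | rfl | rfl <;> rfl
        have h7 : l = ((x ++ z).drop s.length).take 6 := by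
          have := congrArg (fun w => (w.drop s.length).take 6) h
          simp only [List.append_assoc, List.drop_left, List.take_left' h'] at this
          rw [← this, ← List.append_assoc, List.drop_append_of_le_length (by simp; omega),
            List.take_append_of_le_length (by simp; omega)]
        rw [h7]
        have h8 : ∀ x ∈ W, ∀ z ∈ W, ∀ k < 5, Win (((x ++ z).drop k).take 6) := by
          simp only [W, Set.forall_mem_insert, Set.mem_singleton_iff, forall_eq]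
          decide
        exact h8 x hx z hz _ (by omega)

lemma mem_iff (x : ℤ → Fin 3) : x ∈ RS θ ↔ Good x := by
  constructor
  · intro h
    have h1 : ∀ i, Win (sub x i 6) := by
      intro i
      obtain ⟨a, p, u, h2, s, t, h3⟩ := h i 6
      cases p with
      | zero =>
        have := congrArg List.length h3
        rw [show u = [a] from h2] at this
        simp [sub] at this
        omega
      | succ p => exact cat_win ((pw_iff _ _ _).mp h2) s _ t h3.symm (by simp [sub])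
    have h2 : ∀ i, (x i = 2 → sub x i 5 ∈ W ∧ x (i + 5) = 2) ∧ (x (i + 5) = 2 → x i = 2) := by
      intro i
      simpa [sub, List.ofFn_succ] using (h1 i).2
    obtain ⟨k, hk, h3⟩ := (h1 0).1
    have h4 : x k = 2 := by interval_cases k <;> simpa [sub, List.ofFn_succ] using h3
    refine ⟨k, fun m => ((h2 _).1 ?_).1⟩
    induction m using Int.induction_on with
    | zero => simpa using h4
    | succ m ih => rw [mul_add, ← add_assoc]; exact ((h2 _).1 ih).2
    | pred m ih => exact (h2 _).2 (by rw [← ih]; congr 1; ring)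
  · rintro ⟨j, h⟩ i n
    obtain ⟨r, hr, e⟩ : ∃ r : ℕ, r < 5 ∧ i = j + 5 * ((i - j) / 5) + r :=
      ⟨((i - j) % 5).toNat, by omega, by omega⟩
    have h1 : n < 5 ^ n := Nat.lt_pow_self (by norm_num)
    refine ⟨0, n + 1, _, (pw_iff _ _ _).mpr (good_cat h _ ((i - j) / 5)), ?_⟩
    rw [show 5 * 5 ^ n = r + n + (5 * 5 ^ n - r - n) by omega, sub_add, sub_add, ← e]
    exact ⟨_, _, rfl⟩

/-- the root -/
def f (x : ℤ → Fin 3) (i : ℤ) : Fin 3 :=
  if x (i - 2) = 2 then 2 else if x (i - 3) = 2 ∨ x (i - 4) = 2 then x i else x (i + 1)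

lemma good_two {x : ℤ → Fin 3} {j : ℤ} (h : ∀ m : ℤ, sub x (j + 5 * m) 5 ∈ W) (i : ℤ) :
    x i = 2 ↔ (i - j) % 5 = 0 := by
  have h1 := h ((i - j) / 5)
  rw [sub5] at h1
  have h2 : ∀ a b c d e : Fin 3, [a, b, c, d, e] ∈ W → a = 2 ∧ b ≠ 2 ∧ c ≠ 2 ∧ d ≠ 2 ∧ e ≠ 2 := by
    decide
  obtain ⟨k0, k1, k2, k3, k4⟩ := h2 _ _ _ _ _ h1
  refine ⟨fun h3 => ?_, fun h3 => by rw [← k0]; congr 1; omega⟩
  by_contra h4
  have : i = j + 5 * ((i - j) / 5) + 1 ∨ i = j + 5 * ((i - j) / 5) + 2 ∨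
    i = j + 5 * ((i - j) / 5) + 3 ∨ i = j + 5 * ((i - j) / 5) + 4 := by omega
  rcases this with e | e | e | e <;> rw [e] at h3 <;> contradiction

lemma f_eq {x : ℤ → Fin 3} {j : ℤ} (h : ∀ m : ℤ, sub x (j + 5 * m) 5 ∈ W) (i : ℤ) :
    f x i = x (if (i - j) % 5 = 2 then i - 2 else if (i - j) % 5 = 3 ∨ (i - j) % 5 = 4 then i
      else i + 1) := by
  simp only [f, good_two h]
  split_ifs <;> first | rfl | omega | exact ((good_two h _).mpr (by assumption)).symm

lemma f_good {x : ℤ → Fin 3} {j : ℤ} (h : ∀ m : ℤ, sub x (j + 5 * m) 5 ∈ W) (m : ℤ) :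
    sub (f x) (j + 2 + 5 * m) 5 ∈ W := by
  have h1 := h m
  have h2 := h (m + 1)
  rw [sub5] at h1 h2 ⊢
  have h3 : ∀ a b c d e a' b' c' d' e' : Fin 3, [a, b, c, d, e] ∈ W → [a', b', c', d', e'] ∈ W →
      [a, d, e, b', c'] ∈ W := by
    intro a b c d e a' b' c' d' e' h h'
    simp only [W, Set.mem_insert_iff, Set.mem_singleton_iff, List.cons.injEq] at h h'
    rcases h with ⟨rfl, rfl, rfl, rfl, rfl, -⟩ | ⟨rfl, rfl, rfl, rfl, rfl, -⟩ |
      ⟨rfl, rfl, rfl, rfl, rfl, -⟩ | ⟨rfl, rfl, rfl, rfl, rfl, -⟩ <;>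
    rcases h' with ⟨rfl, rfl, rfl, rfl, rfl, -⟩ | ⟨rfl, rfl, rfl, rfl, rfl, -⟩ |
      ⟨rfl, rfl, rfl, rfl, rfl, -⟩ | ⟨rfl, rfl, rfl, rfl, rfl, -⟩ <;> decide
  refine Set.mem_of_eq_of_mem ?_ (h3 _ _ _ _ _ _ _ _ _ _ h1 h2)
  simp only [f_eq h, List.cons.injEq, and_true]
  refine ⟨?_, ?_, ?_, ?_, ?_⟩ <;> congr 1 <;> split_ifs <;> omega

lemma f_f {x : ℤ → Fin 3} (h : Good x) (i : ℤ) : f (f x) i = x (i + 1) := by
  obtain ⟨j, h⟩ := h
  rw [f_eq (f_good h), f_eq h]
  by_cases h1 : (i - j) % 5 = 4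
  · rw [(good_two h _).mpr, (good_two h _).mpr] <;> (try split_ifs) <;> omega
  · congr 1
    split_ifs <;> omega

lemma f_cont : Continuous f := continuous_pi fun i =>
  (continuous_of_discreteTopology (f := fun p : Fin 3 × Fin 3 × Fin 3 × Fin 3 × Fin 3 =>
    if p.1 = 2 then 2 else if p.2.1 = 2 ∨ p.2.2.1 = 2 then p.2.2.2.1 else p.2.2.2.2)).comp
    (f := fun x : ℤ → Fin 3 => (x (i - 2), x (i - 3), x (i - 4), x i, x (i + 1))) (by fun_prop)

lemma f_mem (x : RS θ) : f x.1 ∈ RS θ := by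
  obtain ⟨j, h⟩ := (mem_iff _).mp x.2
  exact (mem_iff _).mpr ⟨_, f_good h⟩

lemma sh_mem (x : RS θ) : (fun i => x.1 (i - 1)) ∈ RS θ := fun i n => by
  simpa [sub, add_sub_right_comm] using x.2 (i - 1) n

lemma W_fin : W.Finite := by unfold W; exact Set.toFinite _

theorem result : ∃ (m : ℕ) (θ : Fin m → Set (List (Fin m))), IsRS θ ∧ Primitive θ ∧ Compatible θ ∧
    (∃ a, 2 ≤ (θ a).ncard) ∧ (RS θ).Nonempty ∧ ∃ h : RS θ ≃ₜ RS θ,
      (∀ x y : RS θ, (∀ i, y.1 i = x.1 (i + 1)) → ∀ i, (h y).1 i = (h x).1 (i + 1)) ∧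
      ∃ n : ℕ, 2 ≤ n ∧ ∀ x i, (h^[n] x).1 i = x.1 (i + 1) := by
  refine ⟨3, θ, fun a => ⟨W_fin, ⟨_, Or.inl rfl⟩, ?_⟩, ⟨1, le_rfl, fun a b =>
    ⟨[2, 0, 1, 0, 1], (pw_iff _ 0 _).mpr (.cons (y := []) (Or.inl rfl) .nil), by revert a; decide⟩⟩,
    fun a => ?_, ⟨0, ?_⟩, ⟨fun i => if i % 5 = 0 then 2 else if i % 5 = 1 ∨ i % 5 = 3 then 0 else 1,
      (mem_iff _).mpr ⟨0, fun m => Or.inl ?_⟩⟩,
    ⟨⟨fun x => ⟨f x.1, f_mem x⟩, fun x => ⟨f _, f_mem ⟨_, sh_mem x⟩⟩, fun x => ?_, fun x => ?_⟩,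
      by exact (f_cont.comp continuous_subtype_val).subtype_mk _,
      by exact (f_cont.comp (f := fun x : RS θ => fun i => x.1 (i - 1))
        (continuous_pi fun i => (continuous_apply _).comp continuous_subtype_val)).subtype_mk _⟩, fun x y h i => ?_, 2, le_rfl,
      fun x i => f_f ((mem_iff _).mp x.2) i⟩
  · rintro _ (rfl | rfl | rfl | rfl) <;> simp
  · rintro _ (rfl | rfl | rfl | rfl) _ (rfl | rfl | rfl | rfl) <;> decide
  · exact (Set.one_lt_ncard W_fin).mpr ⟨_, Or.inl rfl, _, Or.inr (Or.inl rfl), by decide⟩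
  · simp only [sub5, List.cons.injEq, and_true]
    refine ⟨?_, ?_, ?_, ?_, ?_⟩ <;> split_ifs <;> first | rfl | omega
  · ext1; funext i
    have := f_f ((mem_iff _).mp x.2) (i - 1)
    rw [sub_add_cancel] at this
    rw [← this]
    simp only [f, sub_right_comm, add_sub_right_comm]
  · ext1; funext i
    exact (f_f ((mem_iff _).mp (sh_mem x)) i).trans (by simp)
  · show f y.1 i = f x.1 (i + 1)
    simp only [f, h, add_sub_right_comm]

end Pool.Agent.Results.MP_0ef12e_an.Root
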